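import Pool.Agent.H479.W.A2
import Pool.Agent.H479.W.Mon
import Pool.Agent.H479.W.Ten
import Pool.Agent.H479.W.Lhg

/-!
# Montgomery's conjecture from the lower half for the form factor and weak repulsion

Assume the Riemann hypothesis, and let `F(α, T)` be Montgomery's function.  Montgomery's pair
correlation conjecture (Q1) is equivalent to the following two one-sided statements together:

* the lower half: `liminf ∫_a^b F(α, T) dα ≥ b - a` for all `1 ≤ a < b`;
* weak repulsion: there are arbitrarily small `y > 0` for which the number of pairs of ordinates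
  (with multiplicity, the diagonal included) at distance at most `y` mean spacings is at most
  `(1 + δ y + o(1)) (T / 2π) log T`, with `δ → 0` along these `y`.

More precisely, under the lower half alone the excess of the form factor over its conjectured value
is bounded by the number of the close pairs: for `t ≥ 1` and `0 < y < 1/t`, if the number of pairs
at distance at most `y` mean spacings is at most `(1 + c) (T / 2π) log T`, then

  `∫_1^t F(α, T) dα ≤ t - 1 + c / (2 y sinc²(π y t)) + o(1)`.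

Everything holds for `T → ∞` along an arbitrary filter (for instance a sequence of heights).

Idea of the proof: the tent `max 0 (1 - |u|/y)` on the side of the pairs is bounded by the indicator
function of `|u| ≤ y`, and its transform `y sinc²(π y α)` is nonnegative and decreasing for
`0 ≤ α ≤ 1/y`.  The part of the integral over `(-1, 1)` is given by Montgomery's theorem and is at
least what a form factor identically `1` would give; beyond `1` the excess `F - 1` is
nonnegative in the mean by the lower half, so each piece of it is bounded by the whole.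
-/

open MeasureTheory Filter Topology Complex

namespace Pool.Agent.Results.MP_103a5c_nt.LowerHalfAndRepulsion

/-- the nontrivial zeros of `ζ` with ordinate in `(0, T]` -/
def zeros (T : ℝ) : Set ℂ :=
  {s : ℂ | 0 < s.re ∧ s.re < 1 ∧ 0 < s.im ∧ s.im ≤ T ∧ riemannZeta s = 0}

/-- the multiplicity of `s` as a zero of `ζ` -/
noncomputable def mult (s : ℂ) : ℕ := analyticOrderNatAt riemannZeta s

/-- `(T / 2π) log T` -/
noncomputable def X (T : ℝ) : ℝ := T / (2 * Real.pi) * Real.log T

/-- Montgomery's function `F(α, T)`: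
`((T/2π) log T)⁻¹ ∑_γ ∑_γ' T ^ (iα(γ - γ')) w(γ - γ')`, `w(u) = 4 / (4 + u²)`, the zeros being
counted with multiplicity (a real number, as `γ` and `γ'` can be exchanged) -/
noncomputable def F (α T : ℝ) : ℂ :=
  ((X T : ℝ) : ℂ)⁻¹ *
    ∑ᶠ s ∈ zeros T, ∑ᶠ s' ∈ zeros T, (mult s : ℂ) * (mult s' : ℂ) *
      ((T : ℂ) ^ (I * α * ((s.im - s'.im : ℝ) : ℂ)) * (4 / (4 + ((s.im - s'.im : ℝ) : ℂ) ^ 2)))

/-- the number `N(T; α, β)` of pairs of the question -/
noncomputable def N (T α β : ℝ) : ℕ :=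
  ∑ᶠ s ∈ zeros T, ∑ᶠ s' ∈ {s' : ℂ | s' ∈ zeros T ∧
    2 * Real.pi * α / Real.log T ≤ s.im - s'.im ∧ s.im - s'.im ≤ 2 * Real.pi * β / Real.log T},
      mult s * mult s'

/-- the constant of the conjecture -/
noncomputable def P (α β : ℝ) : ℝ :=
  (∫ u in α..β, (1 - (Real.sin (Real.pi * u) / (Real.pi * u)) ^ 2)) +
    if α ≤ 0 ∧ 0 ≤ β then 1 else 0

/-- Montgomery's conjecture (Q1) along the filter `l`; for `l = atTop` it is Q1 -/
def Montgomery (l : Filter ℝ) : Prop := ∀ α β : ℝ, α < β →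
  Asymptotics.IsEquivalent l (fun T => (N T α β : ℝ)) (fun T => P α β * X T)

/-- the lower half of the conjecture `F(α, T) = 1 + o(1)` (`α ≥ 1`) in the mean over windows:
`liminf ∫_a^b F(α, T) dα ≥ b - a` for all `1 ≤ a < b` -/
def LowerHalf (l : Filter ℝ) : Prop := ∀ a b : ℝ, 1 ≤ a → a < b →
  ∀ ε : ℝ, 0 < ε → ∀ᶠ T in l, b - a - ε ≤ ∫ α in a..b, (F α T).re

/-- weak repulsion: for every `δ > 0` there is `0 < y < δ` such that the number of the pairs at
distance at most `y` mean spacings (the diagonal included) is at most `(1 + δ y) (T / 2π) log T` -/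
def WeakRepulsion (l : Filter ℝ) : Prop := ∀ δ : ℝ, 0 < δ → ∃ y : ℝ, 0 < y ∧ y < δ ∧
  ∀ᶠ T in l, (N T (-y) y : ℝ) ≤ (1 + δ * y) * X T

lemma zeros_finite (T : ℝ) : (zeros T).Finite := H370.zeta_zeros_finite T

lemma Zt_eq (T : ℝ) : Pool.Agent.Y744.Zt T = (zeros_finite T).toFinset := rfl

lemma X_eq (T : ℝ) : X T = Pool.Agent.Y744.Xf T := H479.P.Xf_eq T

lemma F_re (RH : RiemannHypothesis) {T : ℝ} (hT : 0 < T) (α : ℝ) :
    (F α T).re = H479.P.Fr T α := by
  classical
  have e : F α T = (((X T)⁻¹ : ℝ) : ℂ) * ∑ s ∈ Pool.Agent.Y744.Zt T, ∑ s' ∈ Pool.Agent.Y744.Zt T,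
      (((mult s : ℝ) * (mult s' : ℝ) : ℝ) : ℂ) *
      (((H479.P.wgt (s.im - s'.im) : ℝ) : ℂ) *
        cexp (((α * Real.log T * (s.im - s'.im) : ℝ) : ℂ) * I)) := by
    unfold F
    rw [finsum_mem_eq_finite_toFinset_sum _ (zeros_finite T), ← Zt_eq]
    congr 1
    · push_cast
      rfl
    · apply Finset.sum_congr rfl
      intro s _
      rw [finsum_mem_eq_finite_toFinset_sum _ (zeros_finite T), ← Zt_eq]
      apply Finset.sum_congr rfl
      intro s' _
      have hT0 : (T : ℂ) ≠ 0 := by exact_mod_cast hT.ne'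
      rw [Complex.cpow_def_of_ne_zero hT0, ← Complex.ofReal_log hT.le]
      unfold H479.P.wgt
      push_cast
      rw [show (Real.log T : ℂ) * (I * α * (s.im - s'.im)) =
        α * Real.log T * (s.im - s'.im) * I by ring]
      ring
  rw [e, Complex.re_ofReal_mul]
  unfold H479.P.Fr
  rw [H479.P.Wp_rh_eq RH, div_eq_inv_mul]
  congr 1
  rw [Complex.re_sum]
  apply Finset.sum_congr rfl
  intro s _
  rw [Complex.re_sum]
  apply Finset.sum_congr rfl
  intro s' _
  rw [Complex.re_ofReal_mul, Complex.re_ofReal_mul, Complex.exp_ofReal_mul_I_re,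
    mul_comm (H479.P.wgt _)]
  rfl

lemma int_F (RH : RiemannHypothesis) {T : ℝ} (hT : 0 < T) (a b : ℝ) :
    ∫ α in a..b, (F α T).re = ∫ α in a..b, H479.P.Fr T α := by
  simp_rw [F_re RH hT]

lemma ev_pos {l : Filter ℝ} (hl : l ≤ atTop) : ∀ᶠ T in l, (1 : ℝ) < T :=
  hl (eventually_gt_atTop 1)

lemma LH_iff (RH : RiemannHypothesis) {l : Filter ℝ} (hl : l ≤ atTop) :
    LowerHalf l ↔ H479.W.LH l := by
  constructor
  · intro h a b ha hab ε hε
    filter_upwards [h a b ha hab ε hε, ev_pos hl] with T h1 h2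
    rwa [int_F RH (by linarith)] at h1
  · intro h a b ha hab ε hε
    filter_upwards [h a b ha hab ε hε, ev_pos hl] with T h1 h2
    rwa [int_F RH (by linarith)]

/-- the number of close pairs -/
lemma N_le_iff {T : ℝ} (hT : 1 < T) (y c : ℝ) :
    (N T (-y) y : ℝ) ≤ c * X T ↔ Pool.Agent.Y744.Aa T y ≤ c := by
  have h1 : (N T (-y) y : ℝ) = Pool.Agent.Y744.PC T (Set.Icc (-y) y) := Pool.Agent.Y744.G.N_eq hT _ _
  rw [← Pool.Agent.Y744.ANC.Nr_sym T y]
  unfold Pool.Agent.Y744.Nr
  rw [div_le_iff₀ (Pool.Agent.Y744.Xf_pos hT), h1, X_eq]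

lemma Rep_iff {l : Filter ℝ} (hl : l ≤ atTop) : WeakRepulsion l ↔ H479.W.Rep l := by
  constructor
  · intro h δ hδ
    obtain ⟨y, h1, h2, h3⟩ := h δ hδ
    refine ⟨y, h1, h2, ?_⟩
    filter_upwards [h3, ev_pos hl] with T h4 h5
    exact (N_le_iff h5 y _).1 h4
  · intro h δ hδ
    obtain ⟨y, h1, h2, h3⟩ := h δ hδ
    refine ⟨y, h1, h2, ?_⟩
    filter_upwards [h3, ev_pos hl] with T h4 h5
    exact (N_le_iff h5 y _).2 h4

lemma Mont_iff' {l : Filter ℝ} (hl : l ≤ atTop) : Montgomery l ↔
    ∀ α β, α < β → Tendsto (fun T => Pool.Agent.Y744.Nr T α β) l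
      (𝓝 (Pool.Agent.Y744.pr α β)) := by
  rw [← Pool.Agent.Y744.G.Mont_iff hl]
  rfl

/-- **Montgomery's conjecture is equivalent to its lower half and weak repulsion.** -/
theorem result (RH : RiemannHypothesis) (l : Filter ℝ) (hl : l ≤ atTop) :
    -- the equivalence
    (Montgomery l ↔ LowerHalf l ∧ WeakRepulsion l) ∧
    -- the excess of the form factor and the number of close pairs
    (LowerHalf l → ∀ t y c : ℝ, 1 ≤ t → 0 < y → y * t < 1 →
      (∀ᶠ T in l, (N T (-y) y : ℝ) ≤ (1 + c) * X T) → ∀ ε : ℝ, 0 < ε →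
      ∀ᶠ T in l, ∫ α in (1 : ℝ)..t, (F α T).re ≤
        t - 1 + c / (2 * (y * Real.sinc (Real.pi * y * t) ^ 2)) + ε) := by
  refine ⟨?_, ?_⟩
  · rw [Mont_iff' hl, LH_iff RH hl, Rep_iff hl]
    constructor
    · intro h
      have hA := H479.P.Aa_of_Mont hl h
      have hU := H479.P.upper_of_Aa RH hl hA
      exact ⟨H479.W.LH_of_ST fun t ht => H479.P.ST_lim RH hl hU ht, H479.W.Rep_of_Aa hA⟩
    · rintro ⟨h1, h2⟩ α β hαβ
      have hS : ∀ t, 1 ≤ t → Tendsto (fun T => H479.P.ST T t) l (𝓝 0) := fun t ht =>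
        H479.W.ST_of_LH RH H479.W.mon H479.W.ten H479.W.lhg hl h1 h2 ht
      exact Pool.Agent.Y744.Nr_all hl (H479.P.rig RH hl fun κ K h' hK hh' =>
        H479.P.testA RH hl hS hK hh') hαβ
  · intro h t y c ht hy hyt hc ε hε
    have hc' : ∀ᶠ T in l, Pool.Agent.Y744.Aa T y ≤ 1 + c := by
      filter_upwards [hc, ev_pos hl] with T h1 h2
      exact (N_le_iff h2 y _).1 h1
    filter_upwards [H479.W.excess RH H479.W.mon H479.W.ten H479.W.lhg hl ((LH_iff RH hl).1 h)
      ht hy hyt hc' hε, ev_pos hl] with T h1 h2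
    rw [int_F RH (by linarith)]
    exact h1

end Pool.Agent.Results.MP_103a5c_nt.LowerHalfAndRepulsion
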