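import Pool.Agent.H487.GP.Long

set_option autoImplicit false

/-!
The pair correlation of the zeros of high derivatives of the Riemann xi function at all distances comparable with `m` mean spacings, `m` the
order of the derivative: a theta function. Unconditional. Authors of the parts: plan, statements, counting, assembly: helper487; the lemmas of
project GP: helpers 307, 736, 874, 25, 224, 295, 600, 909, 353, 484, 685, 82, 643, 903, 664, 876, their uniform versions: helpers 111, 36, 163,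
353, 4, 277; the number of all pairs: helpers 215, 412 (also 670, 407); of project GA: see MP_21f43f_nt.GaussianGaps; the
central limit theorem for linear statistics of the zeros of zeta: project ME of helper203; the good heights: project E of helper477.
-/

open Complex

namespace Pool.Agent.Results.MP_103a5c_nt.ThetaPairCorrelation

/-- The entire Riemann xi function: `xi s = s (s - 1) Λ(s) / 2` for `s ≠ 0, 1`, where
`Λ(s) = π^(-s/2) Γ(s/2) ζ(s)`, since `Λ(s) = Λ₀(s) - 1/s - 1/(1 - s)`. -/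
noncomputable def xi (s : ℂ) : ℂ := (1 + s * (s - 1) * completedRiemannZeta₀ s) / 2

/-- The zeros `z` of the `m`-th derivative of `xi` with `T < Im z ≤ 2T` and `P z`. -/
def Z (m : ℕ) (T : ℝ) (P : ℂ → Prop) : Set ℂ := {z | iteratedDeriv m xi z = 0 ∧ (T < z.im ∧ z.im ≤ 2 * T) ∧ P z}

/-- The number of elements of `Z m T P`, counted with multiplicity. -/
noncomputable def N (m : ℕ) (T : ℝ) (P : ℂ → Prop) : ℝ :=
  ∑ᶠ z ∈ Z m T P, (analyticOrderNatAt (iteratedDeriv m xi) z : ℝ)

/-- The theta function `R_s(x) = ∑_{n ∈ ℤ} (1 + (π s / 2)²)^(-n²) e^(2π i n x)`. -/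
noncomputable def dens (s x : ℝ) : ℝ :=
  1 + 2 * ∑' n : ℕ, Real.cos (2 * Real.pi * (n + 1) * x) / (1 + (Real.pi * s / 2) ^ 2) ^ ((n + 1) ^ 2)

/-- `z = 1/2 + iγ` is on the critical line and `xi^(m)` has a zero `1/2 + iγ'` on the line such that the distance `γ' - γ` is between
`y` and `y + h` mean spacings `2π / log γ`. -/
def PairIn (y h : ℝ) (m : ℕ) (z : ℂ) : Prop :=
  z.re = 1 / 2 ∧ ∃ g : ℝ, iteratedDeriv m xi (1 / 2 + g * I) = 0 ∧
    y ≤ (g - z.im) * Real.log z.im / (2 * Real.pi) ∧ (g - z.im) * Real.log z.im / (2 * Real.pi) ≤ y + h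

/-- The number of all pairs `(z, w)` of zeros of `xi^(m)`, with multiplicity (on the line or not), such that `T < Im z ≤ 2T` and
`Im w - Im z` is between `y` and `y + h` mean spacings `2π / log (Im z)`. -/
noncomputable def Pairs (m : ℕ) (T y h : ℝ) : ℝ :=
  ∑ᶠ z ∈ Z m T fun _ => True, (analyticOrderNatAt (iteratedDeriv m xi) z : ℝ) *
    ∑ᶠ w ∈ {w : ℂ | iteratedDeriv m xi w = 0 ∧ y ≤ (w.im - z.im) * Real.log z.im / (2 * Real.pi) ∧
      (w.im - z.im) * Real.log z.im / (2 * Real.pi) ≤ y + h}, (analyticOrderNatAt (iteratedDeriv m xi) w : ℝ)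

/-- For all `0 < s₀ ≤ s₁` and `ε > 0` there is a `C` such that for `T` and `m` large and `m / log T` small (in terms of `s₀`, `s₁`, `ε`):
`xi^(m)` has finitely many zeros with `T < Im z ≤ 2T`, and uniformly for all windows `[y, y + h]` in `[s₀ m, s₁ m]`:
if `h ≤ 1`, the proportion (with multiplicity) of the zeros which are on the line and have a zero `1/2 + iγ'` of `xi^(m)` at a distance
between `y` and `y + h` mean spacings is `∫_y^(y+h) R_{x/m}(x) dx`, up to `ε`; if `m ≥ C log log T`, the number of all pairs at these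
distances, divided by the number of zeros, is `∫_y^(y+h) R_{x/m}(x) dx`, up to `ε (1 + h)`. -/
theorem result (s₀ s₁ ε : ℝ) (h₀ : 0 < s₀) (h₁ : s₀ ≤ s₁) (hε : 0 < ε) :
    ∃ (m₀ : ℕ) (C δ T₀ : ℝ), 0 < δ ∧ ∀ T : ℝ, T₀ ≤ T → ∀ m : ℕ, m₀ ≤ m → (m : ℝ) ≤ δ * Real.log T →
      (Z m T fun _ => True).Finite ∧
      ∀ y h : ℝ, s₀ * m ≤ y → 0 ≤ h → y + h ≤ s₁ * m →
        (h ≤ 1 →
          |N m T (PairIn y h m) - (∫ x in y..(y + h), dens (x / m) x) * N m T (fun _ => True)| ≤ ε * N m T (fun _ => True)) ∧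
        (C * Real.log (Real.log T) ≤ m →
          |Pairs m T y h - (∫ x in y..(y + h), dens (x / m) x) * N m T (fun _ => True)| ≤ ε * (1 + h) * N m T (fun _ => True)) := by
  have hpi := Real.pi_pos
  obtain ⟨m1, δ1, T1, hδ1, hmain⟩ := Pool.Agent.H487.GP.t_FINPU (v0 := Real.pi * s₀) (v1 := Real.pi * s₁) (mul_pos hpi h₀)
    (mul_le_mul_of_nonneg_left h₁ hpi.le) (show 0 < ε / 2 by positivity)
  obtain ⟨m2, C, δ2, T2, hδ2, hpairs⟩ := Pool.Agent.H487.GP.pairs_long h₀ h₁ hε
  obtain ⟨K, hK, hfr⟩ := Pool.Agent.H487.GP.den_freeze (s0 := s₀) (s1 := s₁) h₀ (show 0 < ε / 2 by positivity)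
  obtain ⟨m3, hm3⟩ := exists_nat_ge K
  refine ⟨max (max m1 m2) (max m3 1), C, min δ1 δ2, max (max T1 T2) (max 3 (Real.pi * (s₁ * δ2))), lt_min hδ1 hδ2, fun T hT m hm hmT => ?_⟩
  have hT1 : T1 ≤ T := ((le_max_left _ _).trans (le_max_left _ _)).trans hT
  have hT2 : T2 ≤ T := ((le_max_right _ _).trans (le_max_left _ _)).trans hT
  have hT3 : 3 ≤ T := ((le_max_left _ _).trans (le_max_right _ _)).trans hT
  have hT4 : Real.pi * (s₁ * δ2) ≤ T := ((le_max_right _ _).trans (le_max_right _ _)).trans hT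
  have hT0 : 0 ≤ T := by linarith
  have hL : 1 ≤ Real.log T := by
    rw [Real.le_log_iff_exp_le (by linarith)]
    linarith [Real.exp_one_lt_three]
  have hL0 : 0 ≤ Real.log T := by linarith
  have hm1 : (1:ℝ) ≤ m := by exact_mod_cast ((le_max_right _ _).trans (le_max_right _ _)).trans hm
  have hm0 : (0:ℝ) < m := by linarith
  have hma : m1 ≤ m := ((le_max_left _ _).trans (le_max_left _ _)).trans hm
  have hmb : m2 ≤ m := ((le_max_right _ _).trans (le_max_left _ _)).trans hm
  have hmc : m3 ≤ m := ((le_max_left _ _).trans (le_max_right _ _)).trans hm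
  have hKm : K ≤ m := hm3.trans (by exact_mod_cast hmc)
  have hmT1 : (m:ℝ) ≤ δ1 * Real.log T := hmT.trans (mul_le_mul_of_nonneg_right (min_le_left _ _) hL0)
  have hmT2 : (m:ℝ) ≤ δ2 * Real.log T := hmT.trans (mul_le_mul_of_nonneg_right (min_le_right _ _) hL0)
  refine ⟨Pool.Agent.H487.EF.num_fin m hT0 _, fun y h hy0 hh0 hy1 => ?_⟩
  have hv0 : Real.pi * s₀ ≤ Real.pi * (y / m) := by
    apply mul_le_mul_of_nonneg_left _ hpi.le
    rw [le_div_iff₀ hm0]
    exact hy0
  have hv1 : Real.pi * (y / m) ≤ Real.pi * s₁ := by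
    apply mul_le_mul_of_nonneg_left _ hpi.le
    rw [div_le_iff₀ hm0]
    linarith
  have hvpos : 0 < Real.pi * (y / m) := lt_of_lt_of_le (mul_pos hpi h₀) hv0
  have e0 : N m T (fun _ => True) = Pool.Agent.H477.E.cnt m (fun _ => True) (2 * T) - Pool.Agent.H477.E.cnt m (fun _ => True) T :=
    Pool.Agent.H487.EF.num_eq m hT0 _ _ fun s => Iff.rfl
  have hN0 : 0 ≤ N m T (fun _ => True) := by
    rw [e0]
    exact Pool.Agent.H487.GP.cnt_nn m hT0
  constructor
  · intro hh1
    have g1 := hmain T hT1 m hma hmT1 (Real.pi * (y / m)) hv0 hv1 0 h (by norm_num) hh1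
    have es : Real.pi * (y / m) * m / Real.pi = y := by
      field_simp
    have e1 : N m T (PairIn y h m) = Pool.Agent.H477.E.cnt m (Pool.Agent.H487.GP.PR (Real.pi * (y / m)) 0 h m) (2 * T) -
        Pool.Agent.H477.E.cnt m (Pool.Agent.H487.GP.PR (Real.pi * (y / m)) 0 h m) T :=
      Pool.Agent.H487.EF.num_eq m hT0 _ _ fun z => by
        rw [← Pool.Agent.H487.GP.prx_iff]
        unfold PairIn Pool.Agent.H487.GP.PRX
        rw [es]
        refine and_congr Iff.rfl (exists_congr fun g => and_congr Iff.rfl (and_congr ⟨fun h => by linarith, fun h => by linarith⟩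
          ⟨fun h => by linarith, fun h => by linarith⟩))
    have e2 : (Pool.Agent.H487.GP.nu (Real.pi * (y / m))).real
        (Pool.Agent.H487.GP.SS (0 + Real.pi * (y / m) * m / Real.pi) (h + Real.pi * (y / m) * m / Real.pi)) =
        ∫ x in y..(y + h), Pool.Agent.H487.GP.Den (y / m) x := by
      have h2 : (1 + (Real.pi * (y / m)) ^ 2 / 4 : ℝ) = 1 + (Real.pi * (y / m) / 2) ^ 2 := by ring
      rw [es, zero_add, add_comm h y, Pool.Agent.H487.GP.t_THETA (Real.pi * (y / m)) hvpos.ne' y (y + h) (by linarith) (by linarith), h2]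
      rfl
    rw [e2, ← e0, ← e1] at g1
    have g2 := hfr m y h hKm hy0 hh0 hh1 hy1
    have g3 : |((∫ x in y..(y + h), Pool.Agent.H487.GP.Den (y / m) x) - ∫ x in y..(y + h), dens (x / m) x) * N m T (fun _ => True)| ≤
        ε / 2 * N m T (fun _ => True) := by
      rw [abs_mul, abs_of_nonneg hN0]
      exact mul_le_mul_of_nonneg_right g2 hN0
    rw [abs_le] at g1 g3 ⊢
    constructor <;> nlinarith [g1.1, g1.2, g3.1, g3.2]
  · intro hC
    have g2 := hpairs T hT2 m hmb hC hmT2 y h hy0 hh0 hy1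
    have hy : 0 < y := lt_of_lt_of_le (mul_pos h₀ hm0) hy0
    have hs₁ : 0 < s₁ := lt_of_lt_of_le h₀ h₁
    have hyT : 2 * Real.pi * (y + h) ≤ 2 * T * Real.log T := by
      have q1 : y + h ≤ s₁ * δ2 * Real.log T := by
        have q2 : s₁ * m ≤ s₁ * (δ2 * Real.log T) := mul_le_mul_of_nonneg_left hmT2 hs₁.le
        linarith
      have q3 : Real.pi * (y + h) ≤ Real.pi * (s₁ * δ2 * Real.log T) := mul_le_mul_of_nonneg_left q1 hpi.le
      have q4 : Real.pi * (s₁ * δ2) * Real.log T ≤ T * Real.log T := mul_le_mul_of_nonneg_right hT4 hL0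
      linarith
    have e3 : Pairs m T y h = Pool.Agent.H487.GP.Pw m T y h := Pool.Agent.H487.GP.pairs_eq m hT3 hy hyT
    rw [e0, e3]
    exact g2

end Pool.Agent.Results.MP_103a5c_nt.ThetaPairCorrelation
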