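import Pool.Agent.H479.P.Cv

/-!
# Montgomery's conjecture is equivalent to its upper half

Assume the Riemann hypothesis, and let `F(α, T)` be Montgomery's function.  Montgomery's pair
correlation conjecture (Q1) follows from the one-sided bound that `F(α, T)` is at most `1 + o(1)`
in the mean over every fixed window of `α ≥ 1`:

  `limsup ∫_a^b F(α, T) dα ≤ b - a` for all `1 ≤ a < b`.

The matching lower bound is then automatic, and conversely the conjecture implies that the
integral tends to `b - a`.  This holds for `T → ∞` and along every filter of `T → ∞`, for instance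
along a given sequence of heights.  There is a version in a finite range and with an error: an
upper bound with the error `δ` for the windows in `[1, A]` implies the lower bound
`∫_1^t F ≥ t - 1 - δ - (1 / 6 + (t - 1) δ) / (A - t) - o(1)` for `1 ≤ t < A`.

Idea of the proof: as the number of the zeros is at most `(1 + o(1)) (T / 2π) log T` the positivity
of the Fejér kernel gives `∫_1^A S(t) dt ≥ -1/6 - o(1)` for every `A`, where `S(t) = ∫_1^t (F - 1)`.
The upper half says that `S` is nonincreasing up to `o(1)`, so that a negative value of `S`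
would persist, which is impossible for large `A`.  Hence `S → 0`, and `F` converges against every
test function (here `F = O(1)` on `[1/2, 1]` is used, the Gaussian mean value theorem for the prime
sum with the error `O(n)`); the test functions of all bandwidths determine the pair correlation.
-/

open MeasureTheory Filter Topology Complex

namespace Pool.Agent.Results.MP_103a5c_nt.UpperHalfSuffices

/-- the nontrivial zeros of `ζ` with ordinate in `(0, T]` -/
def zeros (T : ℝ) : Set ℂ :=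
  {s : ℂ | 0 < s.re ∧ s.re < 1 ∧ 0 < s.im ∧ s.im ≤ T ∧ riemannZeta s = 0}

/-- the multiplicity of `s` as a zero of `ζ` -/
noncomputable def mult (s : ℂ) : ℕ := analyticOrderNatAt riemannZeta s

/-- `(T / 2π) log T` -/
noncomputable def X (T : ℝ) : ℝ := T / (2 * Real.pi) * Real.log T

/-- Montgomery's function `F(α, T)`:
`((T/2π) log T)⁻¹ ∑_γ ∑_γ' T ^ (iα(γ - γ')) w(γ - γ')`, `w(u) = 4 / (4 + u²)`, the zeros being
counted with multiplicity (a real number, as `γ` and `γ'` can be exchanged) -/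
noncomputable def F (α T : ℝ) : ℂ :=
  ((X T : ℝ) : ℂ)⁻¹ *
    ∑ᶠ s ∈ zeros T, ∑ᶠ s' ∈ zeros T, (mult s : ℂ) * (mult s' : ℂ) *
      ((T : ℂ) ^ (I * α * ((s.im - s'.im : ℝ) : ℂ)) * (4 / (4 + ((s.im - s'.im : ℝ) : ℂ) ^ 2)))

/-- the number `N(T; α, β)` of pairs of the question -/
noncomputable def N (T α β : ℝ) : ℕ :=
  ∑ᶠ s ∈ zeros T, ∑ᶠ s' ∈ {s' : ℂ | s' ∈ zeros T ∧
    2 * Real.pi * α / Real.log T ≤ s.im - s'.im ∧ s.im - s'.im ≤ 2 * Real.pi * β / Real.log T},
      mult s * mult s'

/-- the constant of the conjecture -/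
noncomputable def P (α β : ℝ) : ℝ :=
  (∫ u in α..β, (1 - (Real.sin (Real.pi * u) / (Real.pi * u)) ^ 2)) +
    if α ≤ 0 ∧ 0 ≤ β then 1 else 0

/-- Montgomery's conjecture (Q1) along the filter `l`; for `l = atTop` it is Q1 -/
def Montgomery (l : Filter ℝ) : Prop := ∀ α β : ℝ, α < β →
  Asymptotics.IsEquivalent l (fun T => (N T α β : ℝ)) (fun T => P α β * X T)

/-- the upper bound with the error `δ` for the mean values of `F` over the windows in `[1, A]` -/
def UpperBound (l : Filter ℝ) (δ A : ℝ) : Prop := ∀ a b : ℝ, 1 ≤ a → a < b → b ≤ A →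
  ∀ ε : ℝ, 0 < ε → ∀ᶠ T in l, ∫ α in a..b, (F α T).re ≤ b - a + δ + ε

/-- the upper half of the conjecture `F(α, T) = 1 + o(1)` (`α ≥ 1`) in the mean over windows:
`limsup ∫_a^b F(α, T) dα ≤ b - a` for all `1 ≤ a < b` -/
def UpperHalf (l : Filter ℝ) : Prop := ∀ a b : ℝ, 1 ≤ a → a < b →
  ∀ ε : ℝ, 0 < ε → ∀ᶠ T in l, ∫ α in a..b, (F α T).re ≤ b - a + ε

lemma zeros_finite (T : ℝ) : (zeros T).Finite := H370.zeta_zeros_finite T

lemma Zt_eq (T : ℝ) : Pool.Agent.Y744.Zt T = (zeros_finite T).toFinset := rfl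

lemma X_eq (T : ℝ) : X T = Pool.Agent.Y744.Xf T := H479.P.Xf_eq T

lemma F_re (RH : RiemannHypothesis) {T : ℝ} (hT : 0 < T) (α : ℝ) :
    (F α T).re = H479.P.Fr T α := by
  classical
  have e : F α T = (((X T)⁻¹ : ℝ) : ℂ) * ∑ s ∈ Pool.Agent.Y744.Zt T, ∑ s' ∈ Pool.Agent.Y744.Zt T,
      (((mult s : ℝ) * (mult s' : ℝ) : ℝ) : ℂ) *
      (((H479.P.wgt (s.im - s'.im) : ℝ) : ℂ) *
        cexp (((α * Real.log T * (s.im - s'.im) : ℝ) : ℂ) * I)) := by
    unfold F
    rw [finsum_mem_eq_finite_toFinset_sum _ (zeros_finite T), ← Zt_eq]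
    congr 1
    · push_cast
      rfl
    · apply Finset.sum_congr rfl
      intro s _
      rw [finsum_mem_eq_finite_toFinset_sum _ (zeros_finite T), ← Zt_eq]
      apply Finset.sum_congr rfl
      intro s' _
      have hT0 : (T : ℂ) ≠ 0 := by exact_mod_cast hT.ne'
      rw [Complex.cpow_def_of_ne_zero hT0, ← Complex.ofReal_log hT.le]
      unfold H479.P.wgt
      push_cast
      rw [show (Real.log T : ℂ) * (I * α * (s.im - s'.im)) =
        α * Real.log T * (s.im - s'.im) * I by ring]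
      ring
  rw [e, Complex.re_ofReal_mul]
  unfold H479.P.Fr
  rw [H479.P.Wp_rh_eq RH, div_eq_inv_mul]
  congr 1
  rw [Complex.re_sum]
  apply Finset.sum_congr rfl
  intro s _
  rw [Complex.re_sum]
  apply Finset.sum_congr rfl
  intro s' _
  rw [Complex.re_ofReal_mul, Complex.re_ofReal_mul, Complex.exp_ofReal_mul_I_re,
    mul_comm (H479.P.wgt _)]
  rfl

lemma int_F (RH : RiemannHypothesis) {T : ℝ} (hT : 0 < T) (a b : ℝ) :
    ∫ α in a..b, (F α T).re = ∫ α in a..b, H479.P.Fr T α := by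
  simp_rw [F_re RH hT]

lemma ev_pos {l : Filter ℝ} (hl : l ≤ atTop) : ∀ᶠ T in l, (0 : ℝ) < T :=
  hl (eventually_gt_atTop 0)

lemma UB_eq (RH : RiemannHypothesis) {l : Filter ℝ} (hl : l ≤ atTop) {δ A : ℝ}
    (h : UpperBound l δ A) : H479.P.UB l δ A := by
  intro a b ha hab hb ε hε
  filter_upwards [h a b ha hab hb ε hε, ev_pos hl] with T h1 h2
  rwa [int_F RH h2] at h1

lemma UH_iff (RH : RiemannHypothesis) {l : Filter ℝ} (hl : l ≤ atTop) :
    UpperHalf l ↔ H479.P.UpperHalf l := by
  constructor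
  · intro h a b ha hab ε hε
    filter_upwards [h a b ha hab ε hε, ev_pos hl] with T h1 h2
    rwa [int_F RH h2] at h1
  · intro h a b ha hab ε hε
    filter_upwards [h a b ha hab ε hε, ev_pos hl] with T h1 h2
    rwa [int_F RH h2]

lemma Mont_iff' {l : Filter ℝ} (hl : l ≤ atTop) : Montgomery l ↔
    ∀ α β, α < β → Tendsto (fun T => Pool.Agent.Y744.Nr T α β) l
      (𝓝 (Pool.Agent.Y744.pr α β)) := by
  rw [← Pool.Agent.Y744.G.Mont_iff hl]
  rfl

/-- **Montgomery's conjecture is equivalent to its upper half.** -/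
theorem result (RH : RiemannHypothesis) (l : Filter ℝ) (hl : l ≤ atTop) :
    -- the equivalence
    (Montgomery l ↔ UpperHalf l) ∧
    (UpperHalf l ↔ ∀ a b : ℝ, 1 ≤ a → a < b →
      Tendsto (fun T => ∫ α in a..b, (F α T).re) l (𝓝 (b - a))) ∧
    -- a finite range, with an error
    (∀ δ A t : ℝ, 0 ≤ δ → 1 ≤ t → t < A → UpperBound l δ A → ∀ ε : ℝ, 0 < ε →
      ∀ᶠ T in l, t - 1 - δ - (1 / 6 + (t - 1) * δ) / (A - t) - ε ≤ ∫ α in (1 : ℝ)..t, (F α T).re) ∧
    -- all windows, with an error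
    (∀ δ : ℝ, 0 ≤ δ → (∀ A : ℝ, UpperBound l δ A) → ∀ t : ℝ, 1 ≤ t → ∀ ε : ℝ, 0 < ε →
      ∀ᶠ T in l, t - 1 - δ - ε ≤ ∫ α in (1 : ℝ)..t, (F α T).re) := by
  have hlim : H479.P.UpperHalf l → ∀ a b : ℝ, 1 ≤ a → a < b →
      Tendsto (fun T => ∫ α in a..b, (F α T).re) l (𝓝 (b - a)) := by
    intro h a b ha hab
    have h1 := H479.P.ST_lim RH hl h ha
    have h2 := H479.P.ST_lim RH hl h (ha.trans hab.le)
    have h3 := (h2.sub h1).add_const (b - a)
    rw [sub_zero, zero_add] at h3
    refine h3.congr' ?_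
    filter_upwards [ev_pos hl] with T hT
    rw [int_F RH hT, H479.P.ST_sub]
    ring
  refine ⟨?_, ?_, ?_, ?_⟩
  · rw [Mont_iff' hl, UH_iff RH hl]
    constructor
    · intro h
      exact H479.P.upper_of_Aa RH hl (H479.P.Aa_of_Mont hl h)
    · intro h α β hαβ
      refine Pool.Agent.Y744.Nr_all hl (H479.P.rig RH hl fun κ K h' hK hh' => ?_) hαβ
      exact H479.P.testA RH hl (fun t ht => H479.P.ST_lim RH hl h ht) hK hh'
  · rw [UH_iff RH hl]
    constructor
    · exact hlim
    · intro h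
      rw [← UH_iff RH hl]
      intro a b ha hab ε hε
      filter_upwards [(tendsto_order.1 (h a b ha hab)).2 (b - a + ε) (by linarith)] with T hT
      exact hT.le
  · intro δ A t hδ ht htA h ε hε
    filter_upwards [H479.P.finite_range RH hl hδ (UB_eq RH hl h) ht htA hε, ev_pos hl]
      with T h1 h2
    have h3 := H479.P.ST_sub T 1 t
    rw [H479.P.ST_one] at h3
    rw [int_F RH h2]
    linarith
  · intro δ hδ h t ht ε hε
    filter_upwards [H479.P.lower_all RH hl hδ (fun A => UB_eq RH hl (h A)) ht hε, ev_pos hl]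
      with T h1 h2
    have h3 := H479.P.ST_sub T 1 t
    rw [H479.P.ST_one] at h3
    rw [int_F RH h2]
    linarith

end Pool.Agent.Results.MP_103a5c_nt.UpperHalfSuffices
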