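import Pool.Agent.H203.MC.ALLC

/-!
# The zeros of all Dirichlet L-functions at fixed distances (unconditional)

No hypothesis on the zeros is made; they are counted with multiplicity, on the critical line or not.

For a primitive Dirichlet character `χ` modulo `q` (the character modulo `1` gives the zeta function) and a test function `F` of
class `C²` with compact support let `X_{χ,F}(t) = ∑_γ F(γ - t) - (log(qt/2π)/2π) ∫ F`, the sum over the ordinates of the nontrivial
zeros of `L(s, χ)`: the fluctuation of the zeros near `t`, at a fixed scale.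

(1) For `t` uniform in `[T, 2T]`, `T → ∞`, the joint law of finitely many of the `X_{χ_j,F_j}(t)` converges, with all joint moments
(so all correlations of all orders), to the law of the random variables
`X_j = lim_N -(1/π) Re ∑_{n ≤ N} Λ(n) n^{-1/2} F̂_j(log n) χ_j(n) Θ(n)`, where `Θ` is ONE random completely multiplicative function with
independent uniform values `Θ(p)` on the unit circle.  In particular the covariances are
`(1/2π²) ∑_n Λ(n)²/n Re (F̂_i(log n) conj F̂_j(log n) χ_i(n) conj χ_j(n))`.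

(2) So the zeros of all `L(s, χ)` are, at this scale, functionals of one object: every linear statistic of the zeros of `L(s, χ)` near `t` is,
up to an arbitrarily small error in mean square, a linear statistic of the zeros of `ζ` near the same `t`.
-/

open Complex Filter Topology Set MeasureTheory

namespace Pool.Agent.Results.MP_103a5c_nt.ZerosAtFixedDistances

/-- a primitive Dirichlet character; the character modulo `1` gives the zeta function -/
structure PChar where
  q : ℕ
  ne : NeZero q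
  χ : DirichletCharacter ℂ q
  prim : χ.IsPrimitive

/-- `L(s, χ)` -/
noncomputable def PChar.L (c : PChar) : ℂ → ℂ :=
  have := c.ne
  DirichletCharacter.LFunction c.χ

/-- the values of the character at the integers -/
noncomputable def PChar.val (c : PChar) (m : ℕ) : ℂ := c.χ (m : ZMod c.q)

/-- the character of the zeta function -/
noncomputable def zeta : PChar := ⟨1, inferInstance, 1, DirichletCharacter.isPrimitive_one_level_one⟩

/-- the nontrivial zeros -/
def zeros (L : ℂ → ℂ) : Set ℂ := {s : ℂ | L s = 0 ∧ 0 < s.re ∧ s.re < 1}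

/-- multiplicity of a zero -/
noncomputable def mult (L : ℂ → ℂ) (s : ℂ) : ℕ := analyticOrderNatAt L s

/-- the linear statistic `∑_γ F(γ - t)` of the ordinates near `t`, centred by the local density `log(qt/2π)/2π` -/
noncomputable def stat (c : PChar) (F : ℝ → ℝ) (t : ℝ) : ℝ :=
  (∑ᶠ s ∈ zeros c.L, (mult c.L s : ℝ) * F (s.im - t)) -
    Real.log (c.q * t / (2 * Real.pi)) / (2 * Real.pi) * ∫ x : ℝ, F x

/-- the Fourier transform `∫ F(x) e^{-iξx} dx` -/
noncomputable def ft (F : ℝ → ℝ) (ξ : ℝ) : ℂ := ∫ x : ℝ, (F x : ℂ) * cexp (-(((ξ * x : ℝ) : ℂ) * I))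

/-- the probability space: independent uniform variables `ω_p` in `[0, 1]` -/
abbrev Phases := ℕ → unitInterval

/-- the probability -/
noncomputable def P : Measure Phases := Measure.infinitePi fun _ : ℕ => (volume : Measure unitInterval)

/-- the random completely multiplicative function `Θ(n) = exp(-2πi ∑_p v_p(n) ω_p)` -/
noncomputable def Theta (ω : Phases) (n : ℕ) : ℂ :=
  cexp (-(((2 * Real.pi * n.factorization.sum fun p k => (k : ℝ) * (ω p : ℝ) : ℝ) : ℂ) * I))

/-- the partial sums `-(1/π) Re ∑_{n ≤ N} Λ(n) n^{-1/2} F̂(log n) χ(n) Θ(n)` of the limiting field -/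
noncomputable def partialField (c : PChar) (F : ℝ → ℝ) (N : ℕ) (ω : Phases) : ℝ :=
  -(1 / Real.pi) * ∑ n ∈ Finset.Icc 1 N,
    ArithmeticFunction.vonMangoldt n / Real.sqrt n * (ft F (Real.log n) * c.val n * Theta ω n).re

lemma part_eq (c : PChar) (F : ℝ → ℝ) (N : ℕ) (ω : Phases) :
    partialField c F N ω = -Pool.Agent.H203.MC.Zs (fun n : ℕ => c.χ n) F N (Pool.Agent.H203.MC.rn ω) := by
  unfold partialField Pool.Agent.H203.MC.Zs
  rw [Complex.re_sum, neg_mul, Finset.mul_sum]
  congr 1
  refine Finset.sum_congr rfl fun n _ => ?_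
  have e : ((1 / Real.pi * (ArithmeticFunction.vonMangoldt n / Real.sqrt n) : ℝ) : ℂ) *
      Pool.Agent.H203.ME.FF F (Real.log n) * ((fun n : ℕ => c.χ n) n * Pool.Agent.H203.MC.rn ω n) =
      ((1 / Real.pi * (ArithmeticFunction.vonMangoldt n / Real.sqrt n) : ℝ) : ℂ) *
        (ft F (Real.log n) * c.val n * Theta ω n) := by
    have e1 : Pool.Agent.H203.ME.FF F (Real.log n) = ft F (Real.log n) := rfl
    have e2 : (fun n : ℕ => c.χ n) n = c.val n := rfl
    have e3 : Pool.Agent.H203.MC.rn ω n = Theta ω n := rfl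
    rw [e1, e2, e3]
    ring
  rw [e, Complex.re_ofReal_mul]
  ring

lemma cov_eq (c d : PChar) (F G : ℝ → ℝ) (N : ℕ) :
    1 / (2 * Real.pi ^ 2) * ∑ n ∈ Finset.Icc 1 N, (ArithmeticFunction.vonMangoldt n) ^ 2 / n *
      (ft F (Real.log n) * (starRingEnd ℂ) (ft G (Real.log n)) * (c.val n * (starRingEnd ℂ) (d.val n))).re =
    1 / 2 * ∑ n ∈ Finset.Icc 1 N, (Pool.Agent.H203.MC.co (fun n : ℕ => c.χ n) F n *
      (starRingEnd ℂ) (Pool.Agent.H203.MC.co (fun n : ℕ => d.χ n) G n)).re := by
  rw [Finset.mul_sum, Finset.mul_sum]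
  refine Finset.sum_congr rfl fun n hn => ?_
  have hn1 : 1 ≤ n := (Finset.mem_Icc.1 hn).1
  have hn0 : (0 : ℝ) < n := by exact_mod_cast hn1
  have e1 : Pool.Agent.H203.MC.co (fun n : ℕ => c.χ n) F n =
      -(((1 / Real.pi * (ArithmeticFunction.vonMangoldt n / Real.sqrt n) : ℝ) : ℂ) * ft F (Real.log n) * c.val n) := rfl
  have e2 : Pool.Agent.H203.MC.co (fun n : ℕ => d.χ n) G n =
      -(((1 / Real.pi * (ArithmeticFunction.vonMangoldt n / Real.sqrt n) : ℝ) : ℂ) * ft G (Real.log n) * d.val n) := rfl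
  rw [e1, e2, map_neg, map_mul, map_mul, Complex.conj_ofReal]
  set w : ℝ := 1 / Real.pi * (ArithmeticFunction.vonMangoldt n / Real.sqrt n) with hw
  have e3 : -((w : ℂ) * ft F (Real.log n) * c.val n) * -((w : ℂ) * (starRingEnd ℂ) (ft G (Real.log n)) *
      (starRingEnd ℂ) (d.val n)) = ((w ^ 2 : ℝ) : ℂ) *
      (ft F (Real.log n) * (starRingEnd ℂ) (ft G (Real.log n)) * (c.val n * (starRingEnd ℂ) (d.val n))) := by
    push_cast
    ring
  rw [e3, Complex.re_ofReal_mul]
  have e4 : w ^ 2 = 1 / Real.pi ^ 2 * ((ArithmeticFunction.vonMangoldt n) ^ 2 / n) := by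
    rw [hw, mul_pow, div_pow, div_pow, Real.sq_sqrt hn0.le, one_pow]
  rw [e4]
  field_simp

/-- **The zeros of all Dirichlet L-functions at fixed distances.** -/
theorem result :
    (∀ (k : ℕ) (χ : Fin k → PChar) (F : Fin k → ℝ → ℝ), (∀ j, ContDiff ℝ 2 (F j)) → (∀ j, HasCompactSupport (F j)) →
      ∃ X : Fin k → Phases → ℝ, (∀ j, Measurable (X j)) ∧ (∀ (j : Fin k) (m : ℕ), Integrable (fun ω => |X j ω| ^ m) P) ∧
        (∀ j, Tendsto (fun N : ℕ => ∫ ω, (X j ω - partialField (χ j) (F j) N ω) ^ 2 ∂P) atTop (𝓝 0)) ∧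
        (∀ i j, Tendsto (fun N : ℕ => 1 / (2 * Real.pi ^ 2) * ∑ n ∈ Finset.Icc 1 N,
            (ArithmeticFunction.vonMangoldt n) ^ 2 / n *
              (ft (F i) (Real.log n) * (starRingEnd ℂ) (ft (F j) (Real.log n)) *
                ((χ i).val n * (starRingEnd ℂ) ((χ j).val n))).re) atTop (𝓝 (∫ ω, X i ω * X j ω ∂P))) ∧
        ∀ Φ : (Fin k → ℝ) → ℝ, Continuous Φ → (∃ (C : ℝ) (m : ℕ), ∀ x, |Φ x| ≤ C * (1 + ‖x‖) ^ m) →
          Tendsto (fun T : ℝ => 1 / T * ∫ t in T..(2 * T), Φ (fun j => stat (χ j) (F j) t)) atTop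
            (𝓝 (∫ ω, Φ (fun j => X j ω) ∂P))) ∧
    (∀ (χ : PChar) (F : ℝ → ℝ), ContDiff ℝ 2 F → HasCompactSupport F → ∀ ε : ℝ, 0 < ε →
      ∃ F' : ℝ → ℝ, ContDiff ℝ 2 F' ∧ HasCompactSupport F' ∧
        ∀ᶠ T : ℝ in atTop, 1 / T * ∫ t in T..(2 * T), (stat χ F t - stat zeta F' t) ^ 2 ≤ ε) := by
  constructor
  · intro k χ F hFd hFs
    obtain ⟨X, h1, h2, h3, h4, h5⟩ := Pool.Agent.H203.MC.final1 k (fun j => (χ j).q) (fun j => (χ j).ne)
      (fun j => (χ j).χ) (fun j => (χ j).prim) F hFd hFs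
    refine ⟨X, h1, h2, fun j => ?_, fun i j => ?_, fun Φ hΦ hg => h5 Φ hΦ hg⟩
    · refine (h3 j).congr fun N => ?_
      refine integral_congr_ae (Eventually.of_forall fun ω => ?_)
      simp only
      rw [part_eq]
    · refine (h4 i j).congr fun N => ?_
      rw [cov_eq]
  · intro χ F hFd hFs ε hε
    have := χ.ne
    obtain ⟨F', h1, h2, h3⟩ := Pool.Agent.H203.MC.final2 χ.q χ.χ χ.prim F hFd hFs hε
    refine ⟨F', h1, h2, ?_⟩
    filter_upwards [h3] with T hT
    refine le_trans (le_of_eq ?_) hT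
    congr 1
    apply intervalIntegral.integral_congr
    intro t _
    have e1 : stat χ F t = Pool.Agent.H203.MC.XM (DirichletCharacter.LFunction χ.χ) χ.q F t := rfl
    have e2 : stat zeta F' t =
        Pool.Agent.H203.MC.XM (DirichletCharacter.LFunction (1 : DirichletCharacter ℂ 1)) 1 F' t := by
      unfold stat Pool.Agent.H203.MC.XM
      have e3 : ((zeta.q : ℕ) : ℝ) = 1 := by
        have : zeta.q = 1 := rfl
        rw [this, Nat.cast_one]
      rw [e3]
      rfl
    simp only
    rw [e1, e2]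

end Pool.Agent.Results.MP_103a5c_nt.ZerosAtFixedDistances
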